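import Pool.Agent.helper84.WZ.SpecB

/-! Module wz:GC (helper98): the group theorem in a group over `ℤ² * ℤ`. -/

set_option autoImplicit false

namespace WZ

open DZ

section step

variable {Γ : Type} [Group Γ] (P : ℤ × ℤ → Γ) (x : Γ)

/-- The conjugate used in the construction. -/
def kq (p : ℕ × (ℤ × ℤ)) (f : Γ) : Γ := P p.2 * (x * f * x⁻¹) * (P p.2)⁻¹

/-- The translation used in the construction. -/
def vq (p : ℕ × (ℤ × ℤ)) (d : ℤ × ℤ) : Γ := P (p.2 + p.1 • d) * (P p.2)⁻¹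

/-- The candidate elements. -/
def Yq (p : ℕ × (ℤ × ℤ)) (f : Γ) (d : ℤ × ℤ) (i j : ℕ) : Γ :=
  (kq P x p f ^ i * vq P p d * (kq P x p f ^ i)⁻¹) *
    (kq P x p f ^ j * (vq P p d)⁻¹ * (kq P x p f ^ j)⁻¹)

variable (v : Γ →* G) (hP : ∀ u, v (P u) = zz u)

include hP in
theorem v_Yq (p : ℕ × (ℤ × ℤ)) (f : Γ) (d : ℤ × ℤ) (i j : ℕ) :
    v (Yq P x p f d i j) = YY (v x) p (v f) d i j := by
  have h1 : v (kq P x p f) = kk (v x) p (v f) := by
    simp only [kq, kk, map_mul, map_inv, hP]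
  have h2 : v (vq P p d) = zz (p.1 • d) := by
    simp only [vq, map_mul, map_inv, hP]
    rw [zz_add, zz_comm]
    group
  simp only [Yq, YY, map_mul, map_inv, map_pow, h1, h2]

include hP in
/-- The induction step. -/
theorem GC_step (C : ℤ → Γ) (hC : ∀ N, v (C N) = Monoid.Coprod.inr (Multiplicative.ofAdd N))
    (H K : Subgroup Γ) (Λ : Finset (ℤ × ℤ)) (h0 : 0 ∉ Λ)
    (hH : ∀ γ u, ∃ d ∈ Λ, ∀ n : ℕ, γ * (P (u + n • d) * (P u)⁻¹) * γ⁻¹ ∈ H)
    (E : Set Γ) (hE : E.Finite) (hEh : ∀ f ∈ E, hyp (v f))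
    (hK : ∀ g, ∃ f ∈ E, g * f * g⁻¹ ∈ K) :
    ∃ E' : Set Γ, E'.Finite ∧ (∀ f ∈ E', hyp (v f)) ∧ ∀ g, ∃ f ∈ E', g * f * g⁻¹ ∈ H ⊓ K := by
  classical
  set m := Λ.card with hm
  -- the exponent `N`
  obtain ⟨N, hN⟩ := exists_conj (⋃ d ∈ Finset.Icc 1 m, (fun f : Γ => v f ^ d) '' E)
    (Set.Finite.biUnion (Finset.finite_toSet _) (fun d _ => hE.image _)) (by
      intro f hf
      simp only [Set.mem_iUnion, Finset.mem_Icc] at hf
      obtain ⟨d, ⟨hd1, -⟩, g, hg, rfl⟩ := hf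
      obtain ⟨d, rfl⟩ : ∃ d', d = d' + 1 := ⟨d - 1, by omega⟩
      exact (hEh g hg).pow d)
  set x : Γ := C N with hx
  have hfinE : Finite E := hE
  obtain ⟨F, hF, hF1, hG⟩ := gallai_fin (insert 0 Λ) E
  refine ⟨{y | ∃ p ∈ F, ∃ f ∈ E, ∃ d ∈ Λ, ∃ i j, i < j ∧ j ≤ m ∧ y = Yq P x p f d i j},
    ?_, ?_, ?_⟩
  · refine Set.Finite.subset (((hF.prod hE).prod ((Finset.finite_toSet Λ).prod
      ((Set.finite_Iic m).prod (Set.finite_Iic m)))).image
      (fun z => Yq P x z.1.1 z.1.2 z.2.1 z.2.2.1 z.2.2.2)) ?_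
    rintro y ⟨p, hp, f, hf, d, hd, i, j, hij, hj, rfl⟩
    exact ⟨((p, f), (d, (i, j))), ⟨⟨hp, hf⟩, hd, (show i ≤ m by omega), hj⟩, rfl⟩
  · rintro y ⟨p, hp, f, hf, d, hd, i, j, hij, hj, rfl⟩
    rw [v_Yq P x v hP, hx, hC]
    refine hyp_YY (hF1 p hp) (fun h => h0 (h ▸ hd)) hij (hN _ ?_)
    simp only [Set.mem_iUnion, Finset.mem_Icc]
    exact ⟨j - i, ⟨by omega, by omega⟩, f, hf, rfl⟩
  · intro g
    -- the colouring
    have hcol : ∀ u : ℤ × ℤ, ∃ f : E, (g * P u * x) * f * (g * P u * x)⁻¹ ∈ K := by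
      intro u
      obtain ⟨f, hf, h⟩ := hK (g * P u * x)
      exact ⟨⟨f, hf⟩, h⟩
    choose c hc using hcol
    obtain ⟨p, hp, f, hf⟩ := hG c
    -- the elements `k` and `V k V⁻¹`
    have hk : ∀ d ∈ insert (0 : ℤ × ℤ) Λ,
        g * (vq P p d * kq P x p f * (vq P p d)⁻¹) * g⁻¹ ∈ K := by
      intro d hd
      have h1 := hc (p.1 • d + p.2)
      rw [hf d hd, add_comm] at h1
      have e : g * (vq P p d * kq P x p f * (vq P p d)⁻¹) * g⁻¹ =
          (g * P (p.2 + p.1 • d) * x) * f * (g * P (p.2 + p.1 • d) * x)⁻¹ := by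
        rw [kq, vq]
        group
      rw [e]
      exact h1
    have hk0 : g * kq P x p f * g⁻¹ ∈ K := by
      have := hk 0 (Finset.mem_insert_self _ _)
      simpa [vq] using this
    -- the pigeonhole
    have hpig : ∀ j : Fin (m + 1), ∃ d : Λ,
        (g * kq P x p f ^ (j : ℕ)) * vq P p d * (g * kq P x p f ^ (j : ℕ))⁻¹ ∈ H := by
      intro j
      obtain ⟨d, hd, h⟩ := hH (g * kq P x p f ^ (j : ℕ)) p.2
      exact ⟨⟨d, hd⟩, h p.1⟩
    choose V hV using hpig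
    obtain ⟨i, j, hne, heq⟩ := Fintype.exists_ne_map_eq_of_card_lt V (by
      rw [Fintype.card_fin, Fintype.card_coe]
      omega)
    wlog hlt : i < j generalizing i j
    · exact this j i hne.symm heq.symm (lt_of_le_of_ne (not_lt.1 hlt) hne.symm)
    refine ⟨Yq P x p f (V i) i j, ⟨p, hp, f, f.2, V i, (V i).2, i, j, hlt, by omega, rfl⟩,
      ?_, ?_⟩
    · have h1 := hV i
      have h2 := hV j
      rw [← heq] at h2
      have h3 := H.mul_mem h1 (H.inv_mem h2)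
      have e : g * Yq P x p f (V i) i j * g⁻¹ =
          ((g * kq P x p f ^ (i : ℕ)) * vq P p (V i : ℤ × ℤ) * (g * kq P x p f ^ (i : ℕ))⁻¹) *
          ((g * kq P x p f ^ (j : ℕ)) * vq P p (V i : ℤ × ℤ) *
            (g * kq P x p f ^ (j : ℕ))⁻¹)⁻¹ := by
        rw [Yq]
        group
      rw [e]
      exact h3
    · obtain ⟨d, hd⟩ : ∃ d, (j : ℕ) = i + d := ⟨j - i, by omega⟩
      have h1 := K.pow_mem hk0 (i : ℕ)
      have h2 := K.pow_mem (hk (V i) (Finset.mem_insert_of_mem (V i).2)) d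
      have h3 := K.inv_mem (K.pow_mem hk0 (j : ℕ))
      rw [conj_pow] at h1 h3
      rw [conj_pow, conj_pow] at h2
      have h4 := K.mul_mem (K.mul_mem h1 h2) h3
      have e : g * Yq P x p f (V i) i j * g⁻¹ =
          (g * kq P x p f ^ (i : ℕ) * g⁻¹) * (g * (vq P p (V i : ℤ × ℤ) * kq P x p f ^ d *
            (vq P p (V i : ℤ × ℤ))⁻¹) * g⁻¹) * (g * kq P x p f ^ (j : ℕ) * g⁻¹)⁻¹ := by
        rw [Yq, hd, pow_add]
        group
      rw [e]
      exact h4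

end step

/-- **GC.** -/
theorem GC : GC_stmt := by
  intro Γ _ v P C hP hC Λ h0 k H hH
  have key : ∃ E : Set Γ, E.Finite ∧ (∀ f ∈ E, hyp (v f)) ∧
      ∀ g, ∃ f ∈ E, ∀ i, g * f * g⁻¹ ∈ H i := by
    induction k with
    | zero =>
      refine ⟨{P (1, 0) * C 1},
        Set.finite_singleton _, ?_, fun g => ⟨_, rfl, fun i => i.elim0⟩⟩
      rintro f rfl
      rw [map_mul, hP, hC, hyp, tr, map_mul, rep_zz, rep_inr]
      simp only [Matrix.mul_fin_two, Matrix.trace_fin_two_of]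
      norm_num
    | succ k ih =>
      obtain ⟨E, hE, hEh, hK⟩ := ih (fun i => H i.castSucc) (fun i => hH i.castSucc)
      obtain ⟨E', hE', hEh', h⟩ := GC_step P v hP C hC (H (Fin.last k))
        (⨅ i : Fin k, H i.castSucc) Λ h0 (hH (Fin.last k)) E hE hEh (by
          intro g
          obtain ⟨f, hf, h⟩ := hK g
          exact ⟨f, hf, Subgroup.mem_iInf.2 h⟩)
      refine ⟨E', hE', hEh', fun g => ?_⟩
      obtain ⟨f, hf, hf1, hf2⟩ := h g
      refine ⟨f, hf, fun i => ?_⟩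
      refine Fin.lastCases hf1 (fun i => Subgroup.mem_iInf.1 hf2 i) i
  obtain ⟨E, -, hEh, h⟩ := key
  obtain ⟨f, hf, h1⟩ := h 1
  exact ⟨f, hEh f hf, fun i => by simpa using h1 i⟩

end WZ
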