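import Pool.Agent.helper84.WZ.SpecB

/-! Module wz:MI (helper98): minimal idempotents below a given idempotent. -/

namespace WZ

theorem MI : MI_stmt := by
  intro X _ _ _ _ hc C e hC hmul heC hee
  -- the family of closed nonempty left ideals of `C` fixed by right multiplication with `e`
  let S : Set (Set X) := {L | IsClosed L ∧ L.Nonempty ∧ L ⊆ C ∧ (∀ q ∈ C, ∀ x ∈ L, q * x ∈ L) ∧
    ∀ x ∈ L, x * e = x}
  obtain ⟨L, hL⟩ : ∃ L, Minimal (· ∈ S) L := by
    refine zorn_superset S fun c hcs hchain => ?_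
    rcases c.eq_empty_or_nonempty with rfl | hne
    · refine ⟨{x | x ∈ C ∧ x * e = x}, ⟨?_, ⟨e, heC, hee⟩, fun x hx => hx.1, ?_, fun x hx => hx.2⟩,
        fun s hs => absurd hs (Set.notMem_empty s)⟩
      · exact hC.inter (isClosed_eq (hc e) continuous_id)
      · intro q hq x hx
        exact ⟨hmul q hq x hx.1, by rw [mul_assoc, hx.2]⟩
    · have hdir : DirectedOn (fun a b : Set X => a ⊇ b) c := by
        intro a ha b hb
        rcases hchain.total ha hb with h | h
        · exact ⟨a, ha, le_refl a, h⟩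
        · exact ⟨b, hb, h, le_refl b⟩
      refine ⟨⋂₀ c, ⟨?_, ?_, ?_, ?_, ?_⟩, fun s hs => Set.sInter_subset_of_mem hs⟩
      · exact isClosed_sInter fun s hs => (hcs hs).1
      · refine IsCompact.nonempty_sInter_of_directed_nonempty_isCompact_isClosed (hS := hne.coe_sort)
          hdir (fun s hs => (hcs hs).2.1) (fun s hs => (hcs hs).1.isCompact)
          (fun s hs => (hcs hs).1)
      · obtain ⟨s, hs⟩ := hne
        exact (Set.sInter_subset_of_mem hs).trans (hcs hs).2.2.1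
      · intro q hq x hx s hs
        exact (hcs hs).2.2.2.1 q hq x (hx s hs)
      · intro x hx
        obtain ⟨s, hs⟩ := hne
        exact (hcs hs).2.2.2.2 x (hx s hs)
  obtain ⟨hLc, hLn, hLC, hLi, hLe⟩ := hL.prop
  obtain ⟨ρ, hρL, hρ⟩ := exists_idempotent_in_compact_subsemigroup hc L hLn hLc.isCompact
    (fun x hx y hy => hLi x (hLC hx) y hy)
  refine ⟨ρ, hLC hρL, hρ, hLe ρ hρL, fun p hp => ?_⟩
  have hmem : (fun x => x * (p * ρ)) '' C ∈ S := by
    refine ⟨(hC.isCompact.image (hc _)).isClosed, ⟨_, e, heC, rfl⟩, ?_, ?_, ?_⟩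
    · rintro _ ⟨x, hx, rfl⟩
      exact hmul x hx _ (hmul p hp _ (hLC hρL))
    · rintro q hq _ ⟨x, hx, rfl⟩
      exact ⟨q * x, hmul q hq x hx, by simp [mul_assoc]⟩
    · rintro _ ⟨x, hx, rfl⟩
      change x * (p * ρ) * e = x * (p * ρ)
      rw [mul_assoc, mul_assoc p ρ e, hLe ρ hρL]
  have hsub : (fun x => x * (p * ρ)) '' C ⊆ L := by
    rintro _ ⟨x, hx, rfl⟩
    exact hLi x hx _ (hLi p hp _ hρL)
  obtain ⟨q, hq, hqe⟩ := hL.le_of_le hmem hsub hρL
  exact ⟨q, hq, hqe⟩

end WZ
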